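import Mathlib

set_option autoImplicit false

/-!
# Complex hyperbolic space of dimension `m + 1` and unitary groups over the Eisenstein integers

Points are pairs `(z, ζ)` with `z` a complex number and `ζ ∈ ℂᵐ`; complex hyperbolic space is the
Siegel domain `2 Re z + |ζ|² < 0`.
-/

namespace Pool.Agent.Helper19.UnP

open MeasureTheory
open scoped ComplexConjugate

/-- the vector space `ℂ × ℂᵐ × ℂ` -/
abbrev V (m : ℕ) := ℂ × (Fin m → ℂ) × ℂ

/-- ambient space `ℂ × ℂᵐ` of the Siegel domain -/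
abbrev Pt (m : ℕ) := ℂ × (Fin m → ℂ)

/-- the inner product `∑ vₖ* wₖ` of `ℂᵐ` -/
noncomputable def ip {m : ℕ} (v w : Fin m → ℂ) : ℂ := ∑ k, conj (v k) * w k

/-- the Hermitian form `x₁ y₃* + ∑ x₂ₖ y₂ₖ* + x₃ y₁*` of signature `(m+1,1)` -/
noncomputable def herm {m : ℕ} (x y : V m) : ℂ :=
  x.1 * conj y.2.2 + ip y.2.1 x.2.1 + x.2.2 * conj y.1

/-- the squared norm of `ℂᵐ` -/
noncomputable def nsq {m : ℕ} (v : Fin m → ℂ) : ℝ := ∑ k, ‖v k‖ ^ 2

/-- the height `-(2 Re z + |ζ|²)` -/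
noncomputable def hgt {m : ℕ} (p : Pt m) : ℝ := -(2 * p.1.re + nsq p.2)

/-- the Siegel domain (complex hyperbolic space) -/
def SD (m : ℕ) : Set (Pt m) := {p | 0 < hgt p}

/-- the vector `(z, ζ, 1)` -/
def vec {m : ℕ} (p : Pt m) : V m := (p.1, p.2, 1)

/-- the point `(x₁ / x₃, x₂ / x₃)` -/
noncomputable def pnt {m : ℕ} (x : V m) : Pt m := (x.1 / x.2.2, fun k => x.2.1 k / x.2.2)

/-- the action of a bijection of `ℂ × ℂᵐ × ℂ` on points -/
noncomputable def act {m : ℕ} (g : Equiv.Perm (V m)) (p : Pt m) : Pt m := pnt (g (vec p))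

/-- `g` preserves the Hermitian form (so it is linear) and the lattice `M` -/
def IsAut {m : ℕ} (M : Set (V m)) (g : Equiv.Perm (V m)) : Prop :=
  (∀ x y, herm (g x) (g y) = herm x y) ∧ ∀ x, g x ∈ M ↔ x ∈ M

theorem IsAut.mul {m : ℕ} {M : Set (V m)} {g h : Equiv.Perm (V m)} (hg : IsAut M g)
    (hh : IsAut M h) : IsAut M (g * h) := by
  obtain ⟨hg1, hg2⟩ := hg
  obtain ⟨hh1, hh2⟩ := hh
  refine ⟨fun x y => ?_, fun x => ?_⟩
  · rw [Equiv.Perm.mul_apply, Equiv.Perm.mul_apply, hg1, hh1]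
  · rw [Equiv.Perm.mul_apply, hg2, hh2]

theorem IsAut.one {m : ℕ} {M : Set (V m)} : IsAut M 1 := ⟨fun _ _ => rfl, fun _ => Iff.rfl⟩

theorem IsAut.inv {m : ℕ} {M : Set (V m)} {g : Equiv.Perm (V m)} (hg : IsAut M g) :
    IsAut M g⁻¹ := by
  obtain ⟨hg1, hg2⟩ := hg
  have key : ∀ x, g (g⁻¹ x) = x := fun x => g.apply_symm_apply x
  refine ⟨fun x y => ?_, fun x => ?_⟩
  · rw [← hg1 (g⁻¹ x) (g⁻¹ y), key, key]
  · rw [← hg2 (g⁻¹ x), key]

/-- the unitary group `U(M)` of the Hermitian lattice `M` -/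
def UM {m : ℕ} (M : Set (V m)) : Subgroup (Equiv.Perm (V m)) where
  carrier := {g | IsAut M g}
  mul_mem' := IsAut.mul
  one_mem' := IsAut.one
  inv_mem' := IsAut.inv

/-- the transformation `(z, ζ) ↦ (z - ⟨b, ζ⟩ + a, ζ + b)`, as a map of vectors; it is unitary if
`2 Re a + |b|² = 0` (a Heisenberg translation) -/
noncomputable def tr {m : ℕ} (a : ℂ) (b : Fin m → ℂ) (x : V m) : V m :=
  (x.1 - ip b x.2.1 + a * x.2.2, fun k => x.2.1 k + x.2.2 * b k, x.2.2)

theorem tr_tr {m : ℕ} (a : ℂ) (b : Fin m → ℂ) (x : V m) :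
    tr a b (tr (-(a + ip b b)) (-b) x) = x := by
  unfold tr ip
  refine Prod.ext ?_ (Prod.ext ?_ rfl)
  · simp only [Pi.neg_apply, map_neg, neg_mul, Finset.sum_neg_distrib, mul_add, mul_neg,
      Finset.sum_add_distrib]
    have e : ∑ k, conj (b k) * (x.2.2 * b k) = x.2.2 * ∑ k, conj (b k) * b k := by
      rw [Finset.mul_sum]
      exact Finset.sum_congr rfl fun k _ => by ring
    rw [e]
    ring
  · funext k
    simp

theorem tr_tr' {m : ℕ} (a : ℂ) (b : Fin m → ℂ) (x : V m) :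
    tr (-(a + ip b b)) (-b) (tr a b x) = x := by
  have h := tr_tr (-(a + ip b b)) (-b) x
  have e : -(-(a + ip b b) + ip (-b) (-b)) = a := by
    have : ip (-b) (-b) = ip b b := by simp [ip]
    rw [this]
    ring
  rwa [e, neg_neg] at h

/-- the transformation `(z, ζ) ↦ (z - ⟨b, ζ⟩ + a, ζ + b)` -/
noncomputable def T {m : ℕ} (a : ℂ) (b : Fin m → ℂ) : Equiv.Perm (V m) :=
  ⟨tr a b, tr (-(a + ip b b)) (-b), tr_tr' a b, tr_tr a b⟩

/-- directional derivative in the constant direction `e` -/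
noncomputable def pd {m : ℕ} (e : Pt m) (f : Pt m → ℂ) (p : Pt m) : ℂ := fderiv ℝ f p e

/-- `c` times the `k`-th coordinate vector of `ℂᵐ` -/
def ek {m : ℕ} (k : Fin m) (c : ℂ) : Fin m → ℂ := fun j => if j = k then c else 0

/-- derivative along the horizontal field `(-ζₖ*, eₖ)` -/
noncomputable def XX {m : ℕ} (k : Fin m) (f : Pt m → ℂ) (p : Pt m) : ℂ :=
  fderiv ℝ f p (-conj (p.2 k), ek k 1)

/-- derivative along the horizontal field `(-i ζₖ*, i eₖ)` -/
noncomputable def YY {m : ℕ} (k : Fin m) (f : Pt m → ℂ) (p : Pt m) : ℂ :=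
  fderiv ℝ f p (-(Complex.I * conj (p.2 k)), ek k Complex.I)

/-- the Laplacian of complex hyperbolic `(m+1)`-space, normalised so that the holomorphic sectional
curvature is `-4` (the powers `hgt ^ s` are eigenfunctions with eigenvalue `4 s (s - (m + 1))`) -/
noncomputable def lap {m : ℕ} (f : Pt m → ℂ) (p : Pt m) : ℂ :=
  (hgt p : ℂ) ^ 2 * (pd (1, 0) (pd (1, 0) f) p + pd (Complex.I, 0) (pd (Complex.I, 0) f) p)
    + 2 * (m : ℂ) * (hgt p : ℂ) * pd (1, 0) f p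
    + (hgt p : ℂ) * ∑ k : Fin m, (XX k (XX k f) p + YY k (YY k f) p)

/-- a point of the horosphere of height `u`, in coordinates `x ∈ [0,1]^{2m+1}`: the cell of the
group of Heisenberg translations with `b` in the lattice with basis `β` and centre generated by
`T (√3 i) 0` -/
noncomputable def cellpt {m : ℕ} (β : Fin (2 * m) → Fin m → ℂ) (x : (Fin (2 * m) → ℝ) × ℝ)
    (u : ℝ) : Pt m :=
  (⟨-(u + nsq fun j => ∑ i, x.1 i * β i j) / 2, Real.sqrt 3 * x.2⟩, fun j => ∑ i, x.1 i * β i j)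

/-! ## The lattices -/

/-- the primitive third root of unity `ω` -/
noncomputable def om : ℂ := ⟨-1 / 2, Real.sqrt 3 / 2⟩

/-- `√-3` -/
noncomputable def th : ℂ := ⟨0, Real.sqrt 3⟩

/-- the Eisenstein integers `ℤ + ℤ ω` -/
def Eis : Set ℂ := {x | ∃ a b : ℤ, x = a + b * om}

end Pool.Agent.Helper19.UnP
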