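import Pool.Agent.Helper19.UnP.Defs
import Pool.Agent.Helper19.Un.Stmts

set_option autoImplicit false

/-!
# Translation of the main theorem to the elementary formulation
-/

namespace Pool.Agent.Helper19.UnP

open MeasureTheory
open Pool.Agent.Helper19
open scoped ComplexConjugate

variable {m : ℕ}

/-- the coordinates of vectors -/
noncomputable def eL : Un.V m ≃ V m where
  toFun x := (x.1, fun i => x.2.1 i, x.2.2)
  invFun y := (y.1, WithLp.toLp 2 y.2.1, y.2.2)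
  left_inv _ := rfl
  right_inv _ := rfl

theorem ip_inner (v w : Un.E m) : ip (fun i => v i) (fun i => w i) = inner ℂ v w := by
  unfold ip
  rw [PiLp.inner_apply]
  refine Finset.sum_congr rfl fun i _ => ?_
  simp [mul_comm]

theorem nsq_norm (v : Un.E m) : nsq (fun i => v i) = ‖v‖ ^ 2 := by
  rw [EuclideanSpace.norm_sq_eq]
  rfl

theorem herm_eL (x y : Un.V m) : herm (eL x) (eL y) = Un.herm x y := by
  show x.1 * conj y.2.2 + ip (fun i => y.2.1 i) (fun i => x.2.1 i) + x.2.2 * conj y.1 =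
    Un.herm x y
  rw [ip_inner]
  rfl

/-- linear automorphisms as permutations -/
noncomputable def ph : (Un.V m ≃ₗ[ℂ] Un.V m) →* Equiv.Perm (V m) where
  toFun g := (eL.symm.trans g.toEquiv).trans eL
  map_one' := rfl
  map_mul' _ _ := rfl

theorem ph_apply (g : Un.V m ≃ₗ[ℂ] Un.V m) (x : Un.V m) : ph g (eL x) = eL (g x) := rfl

theorem ph_mem {M : AddSubgroup (Un.V m)} {M' : Set (V m)} (hM' : ∀ x, eL x ∈ M' ↔ x ∈ M)
    {g : Un.V m ≃ₗ[ℂ] Un.V m} (hg : g ∈ Un.Gam M) : ph g ∈ UM M' := by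
  obtain ⟨h1, h2⟩ := hg
  refine ⟨fun x y => ?_, fun x => ?_⟩
  · obtain ⟨x, rfl⟩ := eL.surjective x
    obtain ⟨y, rfl⟩ := eL.surjective y
    rw [ph_apply, ph_apply, herm_eL, herm_eL, h1]
  · obtain ⟨x, rfl⟩ := eL.surjective x
    rw [ph_apply, hM', hM', h2]

/-- a bijection preserving the form is linear -/
theorem linear_of_herm {g : Un.V m ≃ Un.V m}
    (hg : ∀ x y, Un.herm (g x) (g y) = Un.herm x y) :
    (∀ x y, g (x + y) = g x + g y) ∧ ∀ (c : ℂ) x, g (c • x) = c • g x := by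
  have nd : ∀ x : Un.V m, (∀ y, Un.herm x y = 0) → x = 0 := by
    intro x hx
    have h1 := hx (1, 0, 0)
    have h2 := hx (0, 0, 1)
    have h3 := hx (0, x.2.1, 0)
    simp only [Un.herm, inner_zero_left, map_zero, map_one, mul_zero, mul_one, zero_add,
      add_zero] at h1 h2 h3
    refine Prod.ext ?_ (Prod.ext ?_ ?_)
    · exact h2
    · exact inner_self_eq_zero.1 h3
    · exact h1
  have fadd : ∀ x y z : Un.V m, Un.herm (x + y) z = Un.herm x z + Un.herm y z :=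
    fun x y z => Un.herm_add_left x y z
  have fsmul : ∀ (c : ℂ) (x z : Un.V m), Un.herm (c • x) z = c * Un.herm x z :=
    fun c x z => Un.herm_smul_left c x z
  constructor
  · intro x y
    have h : g (x + y) + (-1 : ℂ) • (g x + g y) = 0 := by
      apply nd
      intro z
      obtain ⟨z, rfl⟩ := g.surjective z
      rw [fadd, fsmul, fadd, hg, hg, hg, fadd]
      ring
    rw [neg_one_smul, ← sub_eq_add_neg, sub_eq_zero] at h
    exact h
  · intro c x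
    have h : g (c • x) + (-1 : ℂ) • (c • g x) = 0 := by
      apply nd
      intro z
      obtain ⟨z, rfl⟩ := g.surjective z
      rw [fadd, fsmul, fsmul, hg, hg, fsmul]
      ring
    rw [neg_one_smul, ← sub_eq_add_neg, sub_eq_zero] at h
    exact h

theorem exists_ph {M : AddSubgroup (Un.V m)} {M' : Set (V m)} (hM' : ∀ x, eL x ∈ M' ↔ x ∈ M)
    {g : Equiv.Perm (V m)} (hg : g ∈ UM M') : ∃ g' ∈ Un.Gam M, ph g' = g := by
  obtain ⟨h1, h2⟩ := hg
  let k : Un.V m ≃ Un.V m := (eL.trans g).trans eL.symm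
  have hk : ∀ x, eL (k x) = g (eL x) := fun x => eL.apply_symm_apply _
  have hkf : ∀ x y, Un.herm (k x) (k y) = Un.herm x y := by
    intro x y
    rw [← herm_eL, hk, hk, h1, herm_eL]
  obtain ⟨ha, hs⟩ := linear_of_herm hkf
  let K : Un.V m ≃ₗ[ℂ] Un.V m :=
    { toFun := k
      map_add' := ha
      map_smul' := hs
      invFun := k.symm
      left_inv := k.left_inv
      right_inv := k.right_inv }
  have hK : ∀ x, K x = k x := fun x => rfl
  refine ⟨K, ⟨fun x y => ?_, fun x => ?_⟩, ?_⟩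
  · rw [hK, hK, hkf]
  · rw [hK, ← hM', hk, h2, hM']
  · ext1 x
    obtain ⟨x, rfl⟩ := eL.surjective x
    rw [ph_apply, hK, hk]

theorem map_Gam {M : AddSubgroup (Un.V m)} {M' : Set (V m)} (hM' : ∀ x, eL x ∈ M' ↔ x ∈ M) :
    (Un.Gam M).map ph = UM M' := by
  ext g
  rw [Subgroup.mem_map]
  constructor
  · rintro ⟨g', hg', rfl⟩
    exact ph_mem hM' hg'
  · exact exists_ph hM'

/-- the coordinates of points -/
noncomputable def L : Un.Pt m ≃L[ℝ] Pt m :=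
  (ContinuousLinearEquiv.refl ℝ ℂ).prodCongr
    (PiLp.continuousLinearEquiv 2 ℝ (fun _ : Fin m => ℂ))

theorem L_apply (p : Un.Pt m) : L p = (p.1, fun i => p.2 i) := rfl

theorem L_symm (p : Pt m) : L.symm p = (p.1, WithLp.toLp 2 p.2) := rfl

theorem hgt_L (p : Un.Pt m) : hgt (L p) = Un.hgt p := by
  rw [L_apply]
  unfold hgt Un.hgt
  rw [nsq_norm]

theorem mem_SD_L (p : Un.Pt m) : L p ∈ SD m ↔ p ∈ Un.SD m := by
  show 0 < hgt (L p) ↔ 0 < Un.hgt p
  rw [hgt_L]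

theorem vec_L (p : Un.Pt m) : vec (L p) = eL (Un.vec p) := rfl

theorem pnt_eL (x : Un.V m) : pnt (eL x) = L (Un.pnt x) := by
  rw [L_apply]
  refine Prod.ext rfl ?_
  funext i
  show x.2.1 i / x.2.2 = (1 / x.2.2) * x.2.1 i
  ring

theorem act_ph (g : Un.V m ≃ₗ[ℂ] Un.V m) (p : Un.Pt m) :
    act (ph g) (L p) = L (Un.act g p) := by
  unfold act Un.act
  rw [vec_L, ph_apply, pnt_eL]

theorem T_ph (a : ℂ) (b : Un.E m) : ph (Un.T a b) = T a (fun i => b i) := by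
  ext1 x
  obtain ⟨x, rfl⟩ := eL.surjective x
  rw [ph_apply]
  show eL (x.1 - inner ℂ b x.2.1 + a * x.2.2, x.2.1 + x.2.2 • b, x.2.2) =
    tr a (fun i => b i) (eL x)
  unfold tr
  have e : ip (fun i => b i) (eL x).2.1 = inner ℂ b x.2.1 := ip_inner _ _
  rw [e]
  refine Prod.ext rfl (Prod.ext ?_ rfl)
  funext i
  rfl

theorem fd_L (e : Un.Pt m) (f : Pt m → ℂ) (p : Un.Pt m) :
    fderiv ℝ (fun q => f (L q)) p e = fderiv ℝ f (L p) (L e) := by
  have h := L.comp_right_fderiv (f := f) (x := p)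
  have h2 : fderiv ℝ (fun q => f (L q)) p =
    (fderiv ℝ f (L p)).comp ((L (m := m) : Un.Pt m ≃L[ℝ] Pt m) : Un.Pt m →L[ℝ] Pt m) := h
  rw [h2]
  rfl

theorem pd_L (e : Un.Pt m) (f : Pt m → ℂ) (p : Un.Pt m) :
    Un.pd e (fun q => f (L q)) p = pd (L e) f (L p) := fd_L e f p

theorem ek_L (k : Fin m) (c : ℂ) : (fun i => (c • Un.ek k : Un.E m) i) = ek k c := by
  funext i
  show c * (EuclideanSpace.single k (1 : ℂ) : Un.E m) i = if i = k then c else 0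
  rw [PiLp.single_apply]
  split_ifs <;> simp

theorem XX_L (k : Fin m) (f : Pt m → ℂ) (p : Un.Pt m) :
    Un.XX k (fun q => f (L q)) p = XX k f (L p) := by
  unfold Un.XX XX
  rw [fd_L]
  congr 1
  rw [L_apply]
  refine Prod.ext rfl ?_
  have := ek_L k 1
  rw [one_smul] at this
  exact this

theorem YY_L (k : Fin m) (f : Pt m → ℂ) (p : Un.Pt m) :
    Un.YY k (fun q => f (L q)) p = YY k f (L p) := by
  unfold Un.YY YY
  rw [fd_L]
  congr 1
  rw [L_apply]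
  exact Prod.ext rfl (ek_L k Complex.I)

theorem lap_L (f : Pt m → ℂ) (p : Un.Pt m) :
    Un.lap (fun q => f (L q)) p = lap f (L p) := by
  unfold Un.lap lap
  have h2 : ∀ (e : Un.Pt m), Un.pd e (Un.pd e (fun q => f (L q))) p =
      pd (L e) (pd (L e) f) (L p) := by
    intro e
    have : Un.pd e (fun q => f (L q)) = fun q => (pd (L e) f) (L q) := funext fun q => pd_L e f q
    rw [this, pd_L]
  have h3 : ∀ k, Un.XX k (Un.XX k (fun q => f (L q))) p = XX k (XX k f) (L p) := by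
    intro k
    have : Un.XX k (fun q => f (L q)) = fun q => (XX k f) (L q) := funext fun q => XX_L k f q
    rw [this, XX_L]
  have h4 : ∀ k, Un.YY k (Un.YY k (fun q => f (L q))) p = YY k (YY k f) (L p) := by
    intro k
    have : Un.YY k (fun q => f (L q)) = fun q => (YY k f) (L q) := funext fun q => YY_L k f q
    rw [this, YY_L]
  simp only [h2, h3, h4, pd_L, hgt_L]
  rfl

/-- two bases of the same lattice are exchangeable in `Cusp` -/
theorem cusp_basis {N : ℂ → Un.E m → Prop} {β₀ β : Fin (2 * m) → Un.E m} {c : ℝ}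
    (hN : Un.Cusp N β₀ c)
    (hβ : ∀ b, (∃ k : Fin (2 * m) → ℤ, b = ∑ i, (k i : ℝ) • β₀ i) ↔
      ∃ k : Fin (2 * m) → ℤ, b = ∑ i, (k i : ℝ) • β i) : Un.Cusp N β c := by
  refine ⟨hN.cpos, ?_, hN.norm, hN.mul, hN.inv, fun b => (hN.lat b).trans (hβ b), hN.cen⟩
  have hcard : Fintype.card (Fin (2 * m)) = Module.finrank ℝ (Un.E m) := by
    rw [Fintype.card_fin]
    have := Module.finrank_mul_finrank ℝ ℂ (Un.E m)
    rw [Complex.finrank_real_complex, finrank_euclideanSpace, Fintype.card_fin] at this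
    exact this
  have h0 : Submodule.span ℝ (Set.range β₀) = ⊤ := hN.li.span_eq_top_of_card_eq_finrank' hcard
  apply linearIndependent_of_top_le_span_of_card_eq_finrank _ hcard
  rw [← h0, Submodule.span_le]
  rintro _ ⟨j, rfl⟩
  obtain ⟨k, hk⟩ := (hβ (β₀ j)).1 ⟨fun i => if i = j then 1 else 0, by simp⟩
  rw [hk]
  exact Submodule.sum_mem _ fun i _ =>
    Submodule.smul_mem _ _ (Submodule.subset_span ⟨i, rfl⟩)

theorem dual_basis {β₀ β : Fin (2 * m) → Un.E m} {δ : ℝ} (hD : Un.DualMin β₀ δ)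
    (hβ : ∀ b, (∃ k : Fin (2 * m) → ℤ, b = ∑ i, (k i : ℝ) • β₀ i) ↔
      ∃ k : Fin (2 * m) → ℤ, b = ∑ i, (k i : ℝ) • β i) : Un.DualMin β δ := by
  intro ξ hξ hk
  apply hD ξ hξ
  intro j
  obtain ⟨k, hk'⟩ := (hβ (β₀ j)).1 ⟨fun i => if i = j then 1 else 0, by simp⟩
  choose l hl using hk
  refine ⟨∑ i, k i * l i, ?_⟩
  rw [hk', inner_sum, Complex.re_sum]
  push_cast
  refine Finset.sum_congr rfl fun i _ => ?_
  rw [← hl, ← Complex.coe_smul, inner_smul_right, Complex.re_ofReal_mul]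

/-- the Heisenberg translations with `a` an Eisenstein integer and `b` in `Λ` -/
def NP (Λ : Set (Fin m → ℂ)) (a : ℂ) (b : Un.E m) : Prop :=
  a ∈ Eis ∧ (fun i => b i) ∈ Λ ∧ 2 * a.re + ‖b‖ ^ 2 = 0

theorem cellpt_L (β : Fin (2 * m) → Fin m → ℂ) (x : (Fin (2 * m) → ℝ) × ℝ) (u : ℝ) :
    L (Un.cellpt (fun i => WithLp.toLp 2 (β i)) (Real.sqrt 3) x u) = cellpt β x u := by
  have e : (fun j => (∑ i, x.1 i • (WithLp.toLp 2 (β i) : Un.E m)) j) =
      fun j => ∑ i, (x.1 i : ℂ) * β i j := by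
    funext j
    simp
  rw [L_apply]
  unfold Un.cellpt cellpt
  rw [← nsq_norm]
  simp only [e]

/-- the main theorem in coordinates -/
theorem main_P (hMAIN : Un.ST_MAIN) {M : AddSubgroup (Un.V m)} {M' : Set (V m)}
    (hM' : ∀ x, eL x ∈ M' ↔ x ∈ M) (hM : Un.IsLat M) {Λ : Set (Fin m → ℂ)}
    {β₀ : Fin (2 * m) → Un.E m} {δ : ℝ} (hN : Un.Cusp (NP Λ) β₀ (Real.sqrt 3))
    (hD : Un.DualMin β₀ δ) (hδ : 0 ≤ δ) (hNM : ∀ a b, NP Λ a b → Un.T a b ∈ Un.Gam M)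
    (hΛ : ∀ b : Un.E m, (fun i => b i) ∈ Λ → ∃ a ∈ Eis, 2 * a.re + ‖b‖ ^ 2 = 0)
    {C₀ a₀ : ℝ} (ha₀ : 0 < a₀) (hcov : Un.Covers M C₀ a₀) {ψ : ℝ → ℝ} {Mx κ : ℝ} (hκ : 0 ≤ κ)
    (hW : Un.Wts M δ (Real.sqrt 3) ψ Mx κ)
    (Δ : Subgroup (Equiv.Perm (V m))) (hfi : Δ.relIndex (UM M') ≠ 0)
    (hwid : ∀ γ ∈ UM M', ∀ a ∈ Eis, ∀ b ∈ Λ, 2 * a.re + nsq b = 0 → γ * T a b * γ⁻¹ ∈ Δ)
    (β : Fin (2 * m) → Fin m → ℂ)
    (hβ : ∀ b, b ∈ Λ ↔ ∃ k : Fin (2 * m) → ℤ, b = fun j => ∑ i, (k i : ℂ) * β i j)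
    (f : Pt m → ℂ) (hf : ContDiffOn ℝ 2 f (SD m))
    (hinv : ∀ γ ∈ Δ, ∀ p ∈ SD m, f (act γ p) = f p)
    (hbdd : ∃ B : ℝ, ∀ p ∈ SD m, ‖f p‖ ≤ B)
    (lam : ℂ) (heig : ∀ p ∈ SD m, lap f p = -lam * f p)
    (hcusp : ∀ γ ∈ UM M', ∀ r : ℝ, 0 < r →
      ∫ x in Set.Icc (0 : (Fin (2 * m) → ℝ) × ℝ) 1, f (act γ (cellpt β x r)) = 0)
    (hne : ∃ p ∈ SD m, f p ≠ 0) : ∃ l : ℝ, κ ≤ l ∧ lam = l := by
  have hlat : ∀ b : Un.E m, (fun i => b i) ∈ Λ ↔
      ∃ k : Fin (2 * m) → ℤ, b = ∑ i, (k i : ℝ) • (WithLp.toLp 2 (β i) : Un.E m) := by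
    intro b
    rw [hβ]
    refine exists_congr fun k => ?_
    constructor
    · intro h
      ext j
      have := congrFun h j
      simp only [this]
      simp
    · intro h
      funext j
      rw [h]
      simp
  have hex : ∀ b : Un.E m, (∃ a, NP Λ a b) ↔ (fun i => b i) ∈ Λ := by
    intro b
    constructor
    · rintro ⟨a, -, h, -⟩
      exact h
    · intro h
      obtain ⟨a, ha, hab⟩ := hΛ b h
      exact ⟨a, ha, h, hab⟩
  have hββ : ∀ b : Un.E m, (∃ k : Fin (2 * m) → ℤ, b = ∑ i, (k i : ℝ) • β₀ i) ↔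
      ∃ k : Fin (2 * m) → ℤ, b = ∑ i, (k i : ℝ) • (WithLp.toLp 2 (β i) : Un.E m) := by
    intro b
    rw [← hlat, ← hex, hN.lat]
  have hfi' : (Δ.comap ph).relIndex (Un.Gam M) ≠ 0 := by
    rw [Subgroup.relIndex_comap, map_Gam hM']
    exact hfi
  have hf' : ContDiffOn ℝ 2 (fun q : Un.Pt m => f (L q)) (Un.SD m) :=
    hf.comp L.contDiff.contDiffOn (fun p hp => (mem_SD_L p).2 hp)
  refine hMAIN m M hM (NP Λ) (fun i => WithLp.toLp 2 (β i)) (Real.sqrt 3) δ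
    (cusp_basis hN hββ) (dual_basis hD hββ) hδ hNM C₀ a₀ ha₀ hcov ψ Mx κ hκ hW (Δ.comap ph)
    hfi' (fun q => f (L q)) hf' ?_ ?_ lam ?_ ?_ ?_ ?_
  · intro γ hγ p hp
    show f (L (Un.act γ p)) = f (L p)
    rw [← act_ph]
    exact hinv _ hγ _ ((mem_SD_L p).2 hp)
  · obtain ⟨B, hB⟩ := hbdd
    exact ⟨B, fun p hp => hB _ ((mem_SD_L p).2 hp)⟩
  · intro p hp
    rw [lap_L]
    exact heig _ ((mem_SD_L p).2 hp)
  · intro γ hγ a b hab
    rw [Subgroup.mem_comap, map_mul, map_mul, map_inv, T_ph]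
    refine hwid _ (ph_mem hM' hγ) a hab.1 _ hab.2.1 ?_
    rw [nsq_norm]
    exact hab.2.2
  · intro γ hγ r hr
    rw [← hcusp _ (ph_mem hM' hγ) r hr]
    congr 1
    funext x
    show f (L (Un.act γ (Un.cellpt (fun i => WithLp.toLp 2 (β i)) (Real.sqrt 3) x r))) = _
    rw [← act_ph, cellpt_L]
  · obtain ⟨p, hp, hfp⟩ := hne
    refine ⟨L.symm p, (mem_SD_L _).1 (by rwa [L.apply_symm_apply]), ?_⟩
    show f (L (L.symm p)) ≠ 0
    rw [L.apply_symm_apply]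
    exact hfp

end Pool.Agent.Helper19.UnP
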