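import Pool.Agent.Helper19.Un.Stmts
import Pool.Agent.Helper19.Un.D4Stmts
import Pool.Agent.Helper96.Un.DLAT
import Pool.Agent.Helper70.Un.DCUSP
import Pool.Agent.Helper10.Pic.All
import Pool.Agent.Helper10.Pic.Final

set_option autoImplicit false

/-!
# The Picard modular group as a member of the family
-/

namespace Pool.Agent.Helper19.Un

open MeasureTheory
open Pool.Agent.Helper10
open scoped ComplexConjugate

/-- `ℂ` as `ℂ¹` -/
noncomputable def pict (z : ℂ) : E 1 := WithLp.toLp 2 (fun _ => z)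

theorem pict_apply (z : ℂ) (i : Fin 1) : pict z i = z := rfl

theorem pict_eta (v : E 1) : pict (v 0) = v := by
  ext i
  fin_cases i
  rfl

theorem pict_inner (z w : ℂ) : inner ℂ (pict z) (pict w) = w * conj z := by
  rw [PiLp.inner_apply]
  simp [pict]

theorem pict_norm (z : ℂ) : ‖pict z‖ = ‖z‖ := by
  rw [EuclideanSpace.norm_eq]
  simp [pict]

/-- vectors -/
noncomputable def picv : Pic.V3 ≃ₗ[ℂ] V 1 where
  toFun x := (x.1, pict x.2.1, x.2.2)
  map_add' x y := rfl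
  map_smul' c x := rfl
  invFun y := (y.1, y.2.1 0, y.2.2)
  left_inv x := rfl
  right_inv y := by
    refine Prod.ext rfl (Prod.ext ?_ rfl)
    exact pict_eta _

/-- points -/
noncomputable def picp : Pic.Pt ≃ₗ[ℝ] Pt 1 where
  toFun x := (x.1, pict x.2)
  map_add' x y := rfl
  map_smul' c x := rfl
  invFun y := (y.1, y.2 0)
  left_inv x := rfl
  right_inv y := by
    refine Prod.ext rfl ?_
    exact pict_eta _

theorem picv_apply (x : Pic.V3) : picv x = (x.1, pict x.2.1, x.2.2) := rfl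

theorem picp_apply (x : Pic.Pt) : picp x = (x.1, pict x.2) := rfl

theorem pic_herm (x y : Pic.V3) : herm (picv x) (picv y) = Pic.herm x y := by
  show x.1 * conj y.2.2 + inner ℂ (pict y.2.1) (pict x.2.1) + x.2.2 * conj y.1 = Pic.herm x y
  rw [pict_inner]
  rfl

theorem pic_hgt (p : Pic.Pt) : hgt (picp p) = Pic.hgt p := by
  show -(2 * p.1.re + ‖pict p.2‖ ^ 2) = Pic.hgt p
  rw [pict_norm]
  rfl

theorem pic_SD (p : Pic.Pt) : picp p ∈ SD 1 ↔ p ∈ Pic.SD := by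
  show 0 < hgt (picp p) ↔ 0 < Pic.hgt p
  rw [pic_hgt]

theorem pic_vec (p : Pic.Pt) : vec (picp p) = picv (Pic.vec p) := rfl

theorem pic_pnt (x : Pic.V3) : pnt (picv x) = picp (Pic.pnt x) := by
  refine Prod.ext rfl ?_
  show (1 / x.2.2) • pict x.2.1 = pict (x.2.1 / x.2.2)
  ext i
  show (1 / x.2.2) * x.2.1 = x.2.1 / x.2.2
  ring

/-- group elements -/
noncomputable def picg : (Pic.V3 ≃ₗ[ℂ] Pic.V3) ≃* (V 1 ≃ₗ[ℂ] V 1) where
  toFun g := (picv.symm.trans g).trans picv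
  invFun g := (picv.trans g).trans picv.symm
  left_inv g := by
    ext1 x
    simp
  right_inv g := by
    refine LinearEquiv.ext fun x => ?_
    simp
  map_mul' g h := by
    refine LinearEquiv.ext fun x => ?_
    simp [LinearEquiv.mul_apply]

theorem picg_apply (g : Pic.V3 ≃ₗ[ℂ] Pic.V3) (x : Pic.V3) : picg g (picv x) = picv (g x) := by
  show picv (g (picv.symm (picv x))) = picv (g x)
  rw [LinearEquiv.symm_apply_apply]

theorem pic_act (g : Pic.V3 ≃ₗ[ℂ] Pic.V3) (p : Pic.Pt) :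
    act (picg g) (picp p) = picp (Pic.act g p) := by
  unfold act Pic.act
  rw [pic_vec, picg_apply, pic_pnt]

/-- the lattice `O³` -/
noncomputable def MP3 : AddSubgroup (V 1) where
  carrier := {x | x.1 ∈ Eis ∧ x.2.1 0 ∈ Eis ∧ x.2.2 ∈ Eis}
  add_mem' := by
    rintro x y ⟨h1, h2, h3⟩ ⟨h1', h2', h3'⟩
    exact ⟨Eis.add_mem h1 h1', Eis.add_mem h2 h2', Eis.add_mem h3 h3'⟩
  zero_mem' := ⟨Eis.zero_mem, Eis.zero_mem, Eis.zero_mem⟩
  neg_mem' := by
    rintro x ⟨h1, h2, h3⟩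
    exact ⟨Eis.neg_mem h1, Eis.neg_mem h2, Eis.neg_mem h3⟩

theorem pic_mem (x : Pic.V3) : picv x ∈ MP3 ↔ x ∈ Pic.lat3 := Iff.rfl

theorem pic_Gam (g : Pic.V3 ≃ₗ[ℂ] Pic.V3) : picg g ∈ Gam MP3 ↔ g ∈ Pic.Gam := by
  constructor
  · rintro ⟨h1, h2⟩
    refine ⟨fun x y => ?_, fun x => ?_⟩
    · rw [← pic_herm, ← pic_herm, ← picg_apply, ← picg_apply, h1]
    · rw [← pic_mem, ← pic_mem, ← picg_apply, h2]
  · rintro ⟨h1, h2⟩
    refine ⟨fun x y => ?_, fun x => ?_⟩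
    · obtain ⟨x, rfl⟩ := picv.surjective x
      obtain ⟨y, rfl⟩ := picv.surjective y
      rw [picg_apply, picg_apply, pic_herm, pic_herm, h1]
    · obtain ⟨x, rfl⟩ := picv.surjective x
      rw [picg_apply, pic_mem, pic_mem, h2]

theorem pic_w0 : picv Pic.w0 = (w0 : V 1) := by
  show ((1, pict 0, 0) : V 1) = (1, 0, 0)
  refine Prod.ext rfl (Prod.ext ?_ rfl)
  show pict 0 = 0
  ext i
  rfl

theorem pic_Orb (w : Pic.V3) : picv w ∈ Orb MP3 ↔ w ∈ Pic.Orb := by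
  constructor
  · rintro ⟨γ, hγ, h⟩
    obtain ⟨γ, rfl⟩ := picg.surjective γ
    refine ⟨γ, (pic_Gam γ).1 hγ, ?_⟩
    rw [← pic_w0, picg_apply] at h
    exact picv.injective h
  · rintro ⟨γ, hγ, rfl⟩
    refine ⟨picg γ, (pic_Gam γ).2 hγ, ?_⟩
    rw [← pic_w0, picg_apply]

theorem pic_uval (w : Pic.V3) (p : Pic.Pt) : uval (picv w) (picp p) = Pic.uval w p := by
  unfold uval Pic.uval
  rw [pic_vec, pic_herm, pic_hgt]

/-- the orbit -/
noncomputable def pice : Pic.Orb ≃ Orb MP3 :=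
  picv.toEquiv.subtypeEquiv (fun w => (pic_Orb w).symm)

theorem pice_apply (w : Pic.Orb) : ((pice w : Orb MP3) : V 1) = picv w := rfl

theorem pic_Covers : Covers MP3 1 1 := by
  intro p hp
  obtain ⟨p, rfl⟩ := picp.surjective p
  obtain ⟨γ, hγ, h1, h2, h3⟩ := Pic.covers_P p ((pic_SD p).1 hp)
  refine ⟨picg γ, (pic_Gam γ).2 hγ, ?_⟩
  rw [pic_act]
  refine ⟨?_, h2, ?_⟩
  · show ‖pict (Pic.act γ p).2‖ ≤ 1
    rw [pict_norm]
    exact h1
  · rw [pic_hgt]
    exact h3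

theorem pic_muP (u : ℝ) : muP 1 (4 / 9) (Real.sqrt 3) u = Pic.muP u := by
  unfold muP Pic.muP
  rw [Real.sq_sqrt (by norm_num : (0 : ℝ) ≤ 3)]
  push_cast
  congr 1
  · ring
  · ring

theorem pic_tsum (F : ℝ → ENNReal) (p : Pic.Pt) :
    ∑' w : Orb MP3, F (uval w (picp p)) = ∑' w : Pic.Orb, F (Pic.uval w p) := by
  rw [← pice.tsum_eq]
  refine tsum_congr fun w => ?_
  rw [pice_apply, pic_uval]

/-- null sets -/
theorem pic_ae {P : Pt 1 → Prop} (h : ∀ᵐ p ∂Pic.hyp, P (picp p)) : ∀ᵐ p ∂(hyp 1), P p := by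
  have mh : Measurable fun p : Pt 1 => ENNReal.ofReal ((hgt p ^ (1 + 2))⁻¹) :=
    ((measurable_hgt.pow_const _).inv).ennreal_ofReal
  have mh' : Measurable fun p : Pic.Pt => ENNReal.ofReal ((Pic.hgt p ^ 3)⁻¹) :=
    ((Pic.measurable_hgt.pow_const _).inv).ennreal_ofReal
  unfold hyp
  unfold Pic.hyp at h
  rw [ae_withDensity_iff mh, ae_restrict_iff' measurableSet_SD]
  rw [ae_withDensity_iff mh', ae_restrict_iff' Pic.measurableSet_SD] at h
  have : (volume : Measure (Pt 1)).IsAddHaarMeasure := by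
    rw [Measure.volume_eq_prod]
    infer_instance
  have : (volume : Measure Pic.Pt).IsAddHaarMeasure := by
    rw [Measure.volume_eq_prod]
    infer_instance
  let Q : Pic.Pt ≃L[ℝ] Pt 1 := picp.toContinuousLinearEquiv
  have hQ : ∀ p, Q p = picp p := fun p => rfl
  have hH : ((volume : Measure Pic.Pt).map Q).IsAddHaarMeasure := Q.isAddHaarMeasure_map _
  have hac : (volume : Measure (Pt 1)) ≪ (volume : Measure Pic.Pt).map Q :=
    Measure.absolutelyContinuous_isAddHaarMeasure _ _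
  have hQm : MeasurableEmbedding Q := Q.toHomeomorph.measurableEmbedding
  refine hac.ae_le (hQm.ae_map_iff.2 ?_)
  filter_upwards [h] with p hp
  rw [hQ]
  intro h1 h2
  refine hp ((pic_SD p).1 h1) ?_
  rw [pic_hgt] at h2
  exact h2

theorem pic_Wts : Wts MP3 (4 / 9) (Real.sqrt 3) Pic.psi 36 4 where
  meas := Pic.measurable_psi
  nonneg := Pic.psi_nonneg
  pos := by norm_num
  up := by
    intro p hp
    obtain ⟨p, rfl⟩ := picp.surjective p
    rw [pic_tsum (fun u => ENNReal.ofReal (Pic.psi (1 / u)))]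
    exact Pic.upper_P ((pic_SD p).1 hp)
  low := by
    apply pic_ae
    filter_upwards [Pic.ae_uval_ne, Pic.ae_hyp_mem] with p h1 h2
    rw [pic_tsum (fun u => ENNReal.ofReal (muP 1 (4 / 9) (Real.sqrt 3) (1 / u) * Pic.psi (1 / u)))]
    simp only [pic_muP]
    exact Pic.lower_P h2 h1

theorem pic_IsLat : IsLat MP3 := by
  refine ⟨⟨1, one_ne_zero, dorb_one, Eis.zero_mem, Eis.zero_mem⟩, ⟨1, one_pos, ?_⟩, ?_, ?_⟩
  · intro x hx h0
    exact dorb_norm hx.2.2 h0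
  · intro R
    have hF := dlat_fin R
    have hfin : ((fun q : (ℂ × ℂ × ℂ) => ((q.1, pict q.2.1, q.2.2) : V 1)) ''
        ({z : ℂ | z ∈ Eis ∧ ‖z‖ ≤ R} ×ˢ ({z : ℂ | z ∈ Eis ∧ ‖z‖ ≤ R} ×ˢ
          {z : ℂ | z ∈ Eis ∧ ‖z‖ ≤ R}))).Finite :=
      (hF.prod (hF.prod hF)).image _
    refine hfin.subset ?_
    rintro x ⟨⟨h1, h2, h3⟩, hR⟩
    have n1 : ‖x.1‖ ≤ R := (norm_fst_le x).trans hR
    have n2 : ‖x.2‖ ≤ R := (norm_snd_le x).trans hR
    have n3 : ‖x.2.1‖ ≤ R := (norm_fst_le x.2).trans n2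
    have n4 : ‖x.2.2‖ ≤ R := (norm_snd_le x.2).trans n2
    have n5 : ‖x.2.1 0‖ ≤ R := (PiLp.norm_apply_le x.2.1 0).trans n3
    refine ⟨(x.1, x.2.1 0, x.2.2), ⟨⟨h1, n1⟩, ⟨h2, n5⟩, ⟨h3, n4⟩⟩, ?_⟩
    exact Prod.ext rfl (Prod.ext (pict_eta _) rfl)
  · rw [eq_top_iff]
    rintro x -
    have v1 : ((1, 0, 0) : V 1) ∈ MP3 := ⟨dorb_one, Eis.zero_mem, Eis.zero_mem⟩
    have v2 : ((0, pict 1, 0) : V 1) ∈ MP3 := ⟨Eis.zero_mem, dorb_one, Eis.zero_mem⟩
    have v3 : ((0, 0, 1) : V 1) ∈ MP3 := ⟨Eis.zero_mem, Eis.zero_mem, dorb_one⟩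
    have hx : x = x.1 • ((1, 0, 0) : V 1) + (x.2.1 0) • ((0, pict 1, 0) : V 1) +
        x.2.2 • ((0, 0, 1) : V 1) := by
      refine Prod.ext ?_ (Prod.ext ?_ ?_)
      · simp
      · ext i
        fin_cases i
        simp [pict_apply]
      · simp
    rw [hx]
    refine Submodule.add_mem _ (Submodule.add_mem _ ?_ ?_) ?_
    · exact Submodule.smul_mem _ _ (Submodule.subset_span v1)
    · exact Submodule.smul_mem _ _ (Submodule.subset_span v2)
    · exact Submodule.smul_mem _ _ (Submodule.subset_span v3)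

/-- the Heisenberg translations with `b` divisible by `√-3` -/
def NPic (a : ℂ) (b : E 1) : Prop :=
  a ∈ Eis ∧ (∃ c ∈ Eis, b 0 = th * c) ∧ 2 * a.re + ‖b‖ ^ 2 = 0

/-- basis of the cusp lattice -/
noncomputable def bPic : Fin (2 * 1) → E 1 := ![pict th, pict (th * om)]

theorem pic_norm1 (b : E 1) : ‖b‖ = ‖b 0‖ := by
  conv_lhs => rw [← pict_eta b]
  exact pict_norm _

theorem pic_sum (k : Fin (2 * 1) → ℝ) : ∑ i, k i • bPic i = pict (th * (k 0 + k 1 * om)) := by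
  have e : ∑ i, k i • bPic i = k 0 • bPic 0 + k 1 • bPic 1 := Fin.sum_univ_two _
  rw [e]
  ext i
  fin_cases i
  show (k 0 : ℝ) • th + (k 1 : ℝ) • (th * om) = th * (k 0 + k 1 * om)
  rw [Complex.real_smul, Complex.real_smul]
  ring

theorem pic_normsq (x y : ℝ) : ‖th * ((x : ℂ) + y * om)‖ ^ 2 = 3 * (x ^ 2 - x * y + y ^ 2) := by
  have h33 := dcusp_s3
  rw [norm_mul, mul_pow, dlat_th_norm, Real.sq_sqrt (by norm_num : (0 : ℝ) ≤ 3),
    ← Complex.normSq_eq_norm_sq, Complex.normSq_apply]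
  simp [om]
  linear_combination (1 / 4 * y ^ 2) * h33

theorem pic_li : LinearIndependent ℝ bPic := by
  rw [Fintype.linearIndependent_iff]
  intro g hg
  rw [pic_sum] at hg
  have h0 : th * ((g 0 : ℂ) + g 1 * om) = 0 := by
    have := congrArg (fun v : E 1 => v 0) hg
    exact this
  have h1 := pic_normsq (g 0) (g 1)
  rw [h0, norm_zero] at h1
  have h2 : g 0 = 0 ∧ g 1 = 0 := by
    constructor
    · nlinarith [sq_nonneg (g 0 - 2 * g 1), sq_nonneg (g 0)]
    · nlinarith [sq_nonneg (2 * g 0 - g 1), sq_nonneg (g 1)]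
  intro i
  have : i = 0 ∨ i = 1 := by
    fin_cases i
    · left; rfl
    · right; rfl
  rcases this with rfl | rfl
  · exact h2.1
  · exact h2.2

theorem pic_re_im (x y : ℝ) : (th * ((x : ℂ) + y * om)).re = -(3 / 2) * y ∧
    (th * ((x : ℂ) + y * om)).im = Real.sqrt 3 * (x - y / 2) := by
  have h33 := dcusp_s3
  constructor
  · simp [om, th]
    linear_combination (y / 2) * h33
  · simp [om, th]
    ring

/-- `a` Eisenstein with `2 Re a + 3 N = 0` -/
theorem pic_exists (c : ℂ) (hc : c ∈ Eis) : ∃ a ∈ Eis, 2 * a.re + ‖th * c‖ ^ 2 = 0 := by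
  obtain ⟨x, y, rfl⟩ := hc
  have h1 := pic_normsq x y
  push_cast at h1
  refine ⟨th * (((0 : ℤ) : ℂ) + ((x ^ 2 - x * y + y ^ 2 : ℤ) : ℂ) * om),
    dorb_mul dcusp_th_mem ⟨0, _, rfl⟩, ?_⟩
  rw [(dcusp_re_im 0 _).1, h1]
  push_cast
  ring

theorem pic_Cusp : Cusp NPic bPic (Real.sqrt 3) where
  cpos := by positivity
  li := pic_li
  norm := fun a b h => h.2.2
  mul := by
    rintro a b a' b' ⟨h1, ⟨c, hc, h2⟩, h3⟩ ⟨h1', ⟨c', hc', h2'⟩, h3'⟩
    have hi : inner ℂ b b' = 3 * (conj c * c') := by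
      conv_lhs => rw [← pict_eta b, ← pict_eta b']
      rw [pict_inner, h2, h2', map_mul, dcusp_conj_th]
      linear_combination (-(conj c * c')) * dcusp_th2
    refine ⟨?_, ⟨c + c', Eis.add_mem hc hc', ?_⟩, ?_⟩
    · rw [hi]
      refine Eis.sub_mem (Eis.add_mem h1 h1') ?_
      exact dorb_mul ⟨3, 0, by push_cast; ring⟩ (dorb_mul (dorb_conj hc) hc')
    · show b 0 + b' 0 = _
      rw [h2, h2']
      ring
    · rw [norm_add_sq_c, Complex.sub_re, Complex.add_re]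
      linarith
  inv := by
    rintro a b ⟨h1, ⟨c, hc, h2⟩, h3⟩
    refine ⟨dorb_conj h1, ⟨-c, Eis.neg_mem hc, ?_⟩, ?_⟩
    · show -(b 0) = _
      rw [h2]
      ring
    · rw [Complex.conj_re, norm_neg]
      exact h3
  lat := by
    intro b
    constructor
    · rintro ⟨a, _, ⟨_, ⟨x, y, rfl⟩, h2⟩, _⟩
      refine ⟨![x, y], ?_⟩
      have e : ∑ i, (((![x, y] : Fin 2 → ℤ) i : ℤ) : ℝ) • bPic i =
          pict (th * (((x : ℤ) : ℝ) + ((y : ℤ) : ℝ) * om)) :=
        pic_sum fun i => (((![x, y] : Fin 2 → ℤ) i : ℤ) : ℝ)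
      refine Eq.trans ?_ e.symm
      rw [← pict_eta b, h2]
      push_cast
      rfl
    · rintro ⟨k, hk⟩
      rw [pic_sum fun i => (k i : ℝ)] at hk
      have h0 : b 0 = th * ((k 0 : ℂ) + k 1 * om) := by
        rw [hk, pict_apply]
        push_cast
        rfl
      obtain ⟨a, ha, h⟩ := pic_exists ((k 0 : ℂ) + k 1 * om) ⟨k 0, k 1, rfl⟩
      refine ⟨a, ha, ⟨_, ⟨k 0, k 1, rfl⟩, h0⟩, ?_⟩
      rw [pic_norm1, h0]
      exact h
  cen := by
    intro a
    constructor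
    · rintro ⟨⟨x, y, rfl⟩, _, h3⟩
      rw [norm_zero] at h3
      have r1 : ((x : ℂ) + y * om).re = x - y / 2 := by
        simp [om]
        ring
      rw [r1] at h3
      have hy : (y : ℝ) = 2 * x := by linarith
      refine ⟨x, ?_⟩
      apply Complex.ext
      · rw [r1, hy]
        simp
      · simp [om, hy]
        ring
    · rintro ⟨k, rfl⟩
      have e : (k : ℂ) * (Real.sqrt 3 : ℂ) * Complex.I = th * ((k : ℤ) : ℂ) := by
        apply Complex.ext
        · simp [th]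
        · simp [th]
          ring
      refine ⟨?_, ⟨0, Eis.zero_mem, by simp⟩, by simp⟩
      rw [e]
      exact dorb_mul dcusp_th_mem (dcusp_int_mem k)

theorem pic_T {a : ℂ} {b : E 1} (h : NPic a b) {x : V 1} (hx : x ∈ MP3) : T a b x ∈ MP3 := by
  obtain ⟨h1, ⟨c, hc, h2⟩, h3⟩ := h
  obtain ⟨hx1, hx2, hx3⟩ := hx
  have hb : b 0 ∈ Eis := by
    rw [h2]
    exact dorb_mul dcusp_th_mem hc
  have hi : inner ℂ b x.2.1 ∈ Eis := by
    have e : inner ℂ b x.2.1 = x.2.1 0 * conj (b 0) := by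
      conv_lhs => rw [← pict_eta b, ← pict_eta x.2.1]
      rw [pict_inner]
    rw [e]
    exact dorb_mul hx2 (dorb_conj hb)
  rw [T_apply]
  refine ⟨Eis.add_mem (Eis.sub_mem hx1 hi) (dorb_mul h1 hx3), ?_, hx3⟩
  show x.2.1 0 + x.2.2 * b 0 ∈ Eis
  exact Eis.add_mem hx2 (dorb_mul hx3 hb)

theorem pic_TGam (a : ℂ) (b : E 1) (h : NPic a b) : T a b ∈ Gam MP3 := by
  refine ⟨T_mem_UG h.2.2, fun x => ⟨fun hx => ?_, fun hx => pic_T h hx⟩⟩
  have hi := pic_Cusp.inv a b h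
  have h1 := pic_T hi hx
  have e : T (conj a) (-b) * T a b = 1 := by
    rw [T_mul]
    have e1 : conj a + a - inner ℂ (-b) b = 0 := by
      rw [inner_neg_left]
      linear_combination add_conj_of h.2.2
    rw [e1, neg_add_cancel]
    exact T_zero
  have e2 : T (conj a) (-b) (T a b x) = x := by
    rw [← LinearEquiv.mul_apply, e]
    rfl
  rw [e2] at h1
  exact h1

theorem pic_Dual : DualMin bPic (4 / 9) := by
  intro ξ hξ hk
  have h33 := dcusp_s3
  obtain ⟨k, h0⟩ := hk 0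
  obtain ⟨l, h1⟩ := hk 1
  have e0 : inner ℂ ξ (bPic 0) = th * conj (ξ 0) := by
    conv_lhs => rw [← pict_eta ξ]
    exact pict_inner _ _
  have e1 : inner ℂ ξ (bPic 1) = th * om * conj (ξ 0) := by
    conv_lhs => rw [← pict_eta ξ]
    exact pict_inner _ _
  rw [e0] at h0
  rw [e1] at h1
  rw [pic_norm1, ← Complex.normSq_eq_norm_sq, Complex.normSq_apply]
  simp only [th, om, Complex.mul_re, Complex.mul_im, Complex.conj_re, Complex.conj_im] at h0 h1
  set a := (ξ 0).re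
  set b := (ξ 0).im
  have h0' : Real.sqrt 3 * b = k := by linarith
  have h1' : -(3 / 2) * a - Real.sqrt 3 / 2 * b = l := by
    linear_combination h1 + ((a : ℝ) / 2) * h33
  have hkl : 9 * (a * a + b * b) = 4 * ((k : ℝ) ^ 2 + k * l + l ^ 2) := by
    rw [← h0', ← h1']
    linear_combination (-3 * b ^ 2) * h33
  have hne : ¬ (k = 0 ∧ l = 0) := by
    rintro ⟨rfl, rfl⟩
    have h : 9 * (a * a + b * b) = 0 := by
      rw [hkl]
      norm_num
    have ha : a = 0 := by nlinarith [mul_self_nonneg a, mul_self_nonneg b]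
    have hb : b = 0 := by nlinarith [mul_self_nonneg a, mul_self_nonneg b]
    apply hξ
    rw [← pict_eta ξ]
    have : ξ 0 = 0 := Complex.ext ha hb
    rw [this]
    ext i
    rfl
  have hint : 1 ≤ k ^ 2 + k * l + l ^ 2 := by
    by_contra hcon
    push Not at hcon
    apply hne
    constructor
    · nlinarith [sq_nonneg (k + 2 * l), sq_nonneg k]
    · nlinarith [sq_nonneg (2 * k + l), sq_nonneg l]
  have hint' : (1 : ℝ) ≤ (k : ℝ) ^ 2 + k * l + l ^ 2 := by exact_mod_cast hint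
  linarith

end Pool.Agent.Helper19.Un
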