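import Pool.Agent.Helper19.UnP.FamDefs
import Pool.Agent.Helper19.UnP.Main
import Pool.Agent.Helper19.UnP.PIC
import Pool.Agent.Helper19.Un.All

set_option autoImplicit false

/-!
# The members of the family
-/

namespace Pool.Agent.Helper19.UnP

open MeasureTheory
open Pool.Agent.Helper19
open scoped ComplexConjugate

theorem eis_im {z : ℂ} (hz : z ∈ Eis) (h : z.re = 0) : ∃ n : ℤ, z = (n : ℂ) * th := by
  obtain ⟨a, b, rfl⟩ := hz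
  have h1 : (a : ℝ) - b / 2 = 0 := by
    have : ((a : ℂ) + b * om).re = a - b / 2 := by
      simp [om]
      ring
    rw [← this, h]
  have h2 : (b : ℝ) = 2 * a := by linarith
  refine ⟨a, ?_⟩
  apply Complex.ext
  · simp [om, th, h2]
    ring
  · simp [om, th, h2]
    ring

theorem eis_add {x y : ℂ} (hx : x ∈ Eis) (hy : y ∈ Eis) : x + y ∈ Eis := Un.Eis.add_mem hx hy

theorem eis_sub {x y : ℂ} (hx : x ∈ Eis) (hy : y ∈ Eis) : x - y ∈ Eis := Un.Eis.sub_mem hx hy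

/-- comparison of `NP` with another description of the cusp group -/
theorem np_iff {m : ℕ} {N : ℂ → Un.E m → Prop} {β₀ : Fin (2 * m) → Un.E m}
    (hN : Un.Cusp N β₀ (Real.sqrt 3)) {Λ : Set (Fin m → ℂ)}
    (hΛ : ∀ b : Un.E m, (fun i => b i) ∈ Λ ↔ ∃ a, N a b) (hE : ∀ a b, N a b → a ∈ Eis) :
    NP Λ = N := by
  funext a b
  apply propext
  constructor
  · rintro ⟨ha, hb, hab⟩
    obtain ⟨a₀, h₀⟩ := (hΛ b).1 hb
    have h1 := hN.norm a₀ b h₀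
    obtain ⟨n, hn⟩ := eis_im (eis_sub ha (hE _ _ h₀)) (by
      rw [Complex.sub_re]
      linarith)
    have h2 : N ((n : ℂ) * (Real.sqrt 3 : ℂ) * Complex.I) 0 := (hN.cen _).2 ⟨n, rfl⟩
    have h3 := hN.mul _ _ _ _ h2 h₀
    rw [inner_zero_left, sub_zero, zero_add] at h3
    have e : (n : ℂ) * (Real.sqrt 3 : ℂ) * Complex.I + a₀ = a := by
      have e1 : (n : ℂ) * (Real.sqrt 3 : ℂ) * Complex.I = n * th := by
        apply Complex.ext <;> simp [th]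
      rw [e1, ← hn]
      ring
    rwa [e] at h3
  · intro h
    exact ⟨hE _ _ h, (hΛ b).2 ⟨a, h⟩, hN.norm _ _ h⟩

/-! ## the lattice `D₄` -/

theorem mem_L2 (b : Un.E 2) : (fun i => b i) ∈ L2 ↔ b ∈ Un.D4L := Iff.rfl

theorem mem_HL2 (x : Un.V 2) : eL x ∈ HL L2 ↔ x ∈ Un.MD4 := Iff.rfl

theorem eis_th {x : ℂ} (hx : x ∈ Eis) : th * x ∈ Eis := by
  obtain ⟨a, b, rfl⟩ := hx
  refine ⟨a - 2 * b, 2 * a - b, ?_⟩
  have h3 : (Real.sqrt 3 : ℝ) * Real.sqrt 3 = 3 := Real.mul_self_sqrt (by norm_num)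
  apply Complex.ext
  · simp [om, th]
    linear_combination (-(b : ℝ) / 2) * h3
  · simp [om, th]
    ring

theorem np_D4 : NP L2 = Un.ND4 := by
  refine np_iff Un.st_DCUSP.1 (fun b => ?_) (fun a b h => ?_)
  · rw [mem_L2]
    constructor
    · intro h
      obtain ⟨x, hx⟩ := Un.dcusp_norm h
      have h1 := (Un.dcusp_re_im 0 (-x)).1
      have h0 : ((((0 : ℤ) : ℂ) + ((-x : ℤ) : ℂ) * Un.om) : ℂ) ∈ Un.Eis := ⟨0, -x, rfl⟩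
      refine ⟨Un.th * (((0 : ℤ) : ℂ) + ((-x : ℤ) : ℂ) * Un.om), ⟨_, h0, rfl⟩, h, ?_⟩
      rw [h1, hx]
      push_cast
      ring
    · rintro ⟨a, -, h, -⟩
      exact h
  · obtain ⟨⟨a', ha', rfl⟩, -, -⟩ := h
    exact eis_th ha'

/-- the main theorem for the lattice `D₄` -/
theorem main_D4
    (Δ : Subgroup (Equiv.Perm (V 2))) (hfi : Δ.relIndex (UM (HL L2)) ≠ 0)
    (hwid : ∀ γ ∈ UM (HL L2), ∀ a ∈ Eis, ∀ b ∈ L2, 2 * a.re + nsq b = 0 → γ * T a b * γ⁻¹ ∈ Δ)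
    (β : Fin (2 * 2) → Fin 2 → ℂ)
    (hβ : ∀ b, b ∈ L2 ↔ ∃ k : Fin (2 * 2) → ℤ, b = fun j => ∑ i, (k i : ℂ) * β i j)
    (f : Pt 2 → ℂ) (hf : ContDiffOn ℝ 2 f (SD 2))
    (hinv : ∀ γ ∈ Δ, ∀ p ∈ SD 2, f (act γ p) = f p)
    (hbdd : ∃ B : ℝ, ∀ p ∈ SD 2, ‖f p‖ ≤ B)
    (lam : ℂ) (heig : ∀ p ∈ SD 2, lap f p = -lam * f p)
    (hcusp : ∀ γ ∈ UM (HL L2), ∀ r : ℝ, 0 < r →
      ∫ x in Set.Icc (0 : (Fin (2 * 2) → ℝ) × ℝ) 1, f (act γ (cellpt β x r)) = 0)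
    (hne : ∃ p ∈ SD 2, f p ≠ 0) : ∃ l : ℝ, 9 ≤ l ∧ lam = l := by
  have hN : Un.Cusp (NP L2) Un.bD4 (Real.sqrt 3) := by
    rw [np_D4]
    exact Un.st_DCUSP.1
  have hNM : ∀ a b, NP L2 a b → Un.T a b ∈ Un.Gam Un.MD4 := by
    rw [np_D4]
    exact Un.st_DCUSP.2
  have hΛ : ∀ b : Un.E 2, (fun i => b i) ∈ L2 → ∃ a ∈ Eis, 2 * a.re + ‖b‖ ^ 2 = 0 := by
    intro b hb
    obtain ⟨x, hx⟩ := Un.dcusp_norm ((mem_L2 b).1 hb)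
    have h1 := (Un.dcusp_re_im 0 (-x)).1
    have h0 : ((((0 : ℤ) : ℂ) + ((-x : ℤ) : ℂ) * Un.om) : ℂ) ∈ Un.Eis := ⟨0, -x, rfl⟩
    refine ⟨Un.th * (((0 : ℤ) : ℂ) + ((-x : ℤ) : ℂ) * Un.om), eis_th h0, ?_⟩
    rw [h1, hx]
    push_cast
    ring
  exact main_P Un.main_all mem_HL2 Un.st_DLAT hN Un.st_DDUAL (by norm_num) hNM hΛ (by norm_num)
    Un.dwts_all.1 (by norm_num) Un.dwts_all.2 Δ hfi hwid β hβ f hf hinv hbdd lam heig hcusp hne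

/-! ## the Picard modular group -/

theorem mem_O1 (x : Un.V 1) : eL x ∈ OV 1 ↔ x ∈ Un.MP3 := by
  constructor
  · rintro ⟨h1, h2, h3⟩
    exact ⟨h1, h2 0, h3⟩
  · rintro ⟨h1, h2, h3⟩
    refine ⟨h1, fun k => ?_, h3⟩
    have : k = 0 := Subsingleton.elim _ _
    rw [this]
    exact h2

theorem np_Pic : NP L1 = Un.NPic := rfl

/-- the main theorem for the Picard modular group, level `√-3` -/
theorem main_Pic
    (Δ : Subgroup (Equiv.Perm (V 1))) (hfi : Δ.relIndex (UM (OV 1)) ≠ 0)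
    (hwid : ∀ γ ∈ UM (OV 1), ∀ a ∈ Eis, ∀ b ∈ L1, 2 * a.re + nsq b = 0 → γ * T a b * γ⁻¹ ∈ Δ)
    (β : Fin (2 * 1) → Fin 1 → ℂ)
    (hβ : ∀ b, b ∈ L1 ↔ ∃ k : Fin (2 * 1) → ℤ, b = fun j => ∑ i, (k i : ℂ) * β i j)
    (f : Pt 1 → ℂ) (hf : ContDiffOn ℝ 2 f (SD 1))
    (hinv : ∀ γ ∈ Δ, ∀ p ∈ SD 1, f (act γ p) = f p)
    (hbdd : ∃ B : ℝ, ∀ p ∈ SD 1, ‖f p‖ ≤ B)
    (lam : ℂ) (heig : ∀ p ∈ SD 1, lap f p = -lam * f p)
    (hcusp : ∀ γ ∈ UM (OV 1), ∀ r : ℝ, 0 < r →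
      ∫ x in Set.Icc (0 : (Fin (2 * 1) → ℝ) × ℝ) 1, f (act γ (cellpt β x r)) = 0)
    (hne : ∃ p ∈ SD 1, f p ≠ 0) : ∃ l : ℝ, 4 ≤ l ∧ lam = l := by
  have hΛ : ∀ b : Un.E 1, (fun i => b i) ∈ L1 → ∃ a ∈ Eis, 2 * a.re + ‖b‖ ^ 2 = 0 := by
    rintro b ⟨c, hc, h⟩
    have h0 : b 0 = Un.th * c := h
    obtain ⟨a, ha, hab⟩ := Un.pic_exists c hc
    refine ⟨a, ha, ?_⟩
    rw [Un.pic_norm1, h0]
    exact hab
  have hN : Un.Cusp (NP L1) Un.bPic (Real.sqrt 3) := Un.pic_Cusp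
  have hNM : ∀ a b, NP L1 a b → Un.T a b ∈ Un.Gam Un.MP3 := Un.pic_TGam
  exact main_P Un.main_all mem_O1 Un.pic_IsLat hN Un.pic_Dual (by norm_num)
    hNM hΛ one_pos Un.pic_Covers (by norm_num) Un.pic_Wts Δ hfi hwid β hβ f hf hinv hbdd
    lam heig hcusp hne

end Pool.Agent.Helper19.UnP
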