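import Pool.Agent.Helper56.Un.L4Defs

set_option autoImplicit false

/-!
# The Eisenstein lattices of the family
-/

namespace Pool.Agent.Helper19.UnP

/-- the lattice `√-3 O` of rank 1 -/
def L1 : Set (Fin 1 → ℂ) := {x | ∃ c ∈ Eis, x 0 = th * c}

/-- the Eisenstein lattice `{(X, √2 Y) : X ≡ Y mod √-3}` of rank 2 (a scaled root lattice `D₄`, with
24 vectors of norm 3) -/
def L2 : Set (Fin 2 → ℂ) :=
  {x | ∃ X ∈ Eis, ∃ Y ∈ Eis, ∃ k ∈ Eis, X - Y = th * k ∧ x 0 = X ∧ x 1 = (Real.sqrt 2 : ℂ) * Y}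

/-- the Hermitian lattice `O^{m+2}` -/
def OV (m : ℕ) : Set (V m) := {x | x.1 ∈ Eis ∧ (∀ k, x.2.1 k ∈ Eis) ∧ x.2.2 ∈ Eis}

/-- the Hermitian lattice `√-3 O ⊕ Λ ⊕ O` -/
def HL {m : ℕ} (Λ : Set (Fin m → ℂ)) : Set (V m) :=
  {x | (∃ a ∈ Eis, x.1 = th * a) ∧ x.2.1 ∈ Λ ∧ x.2.2 ∈ Eis}

/-- the members of the family: the number `m` (the rank of the Hermitian lattice is `m + 2`), the
lattice `Λ` of the Heisenberg translations and the Hermitian lattice `M` -/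
inductive Fam : (m : ℕ) → Set (Fin m → ℂ) → Set (V m) → Prop
  | picard : Fam 1 L1 (OV 1)
  | d4 : Fam 2 L2 (HL L2)
  | e8 : Fam 4 L4 (HL L4)

end Pool.Agent.Helper19.UnP
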